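import Mathlib
import Pool.Graph.R_seed8.Helper477.Sph.Rig4
import Pool.Graph.R_seed8.Helper477.Sph.Lens2

set_option autoImplicit false

/-! # Cyclic groups acting freely: exponents and the spectral identity -/

namespace Pool.Agent.H78.Sph

open Polynomial Pool.Agent.Helper477.Sph

variable {N q : ℕ} [NeZero q]

/-- The standard additive character. -/
noncomputable abbrev ψ (a : ZMod q) : ℂ := (ZMod.stdAddChar (N := q)) a

/-- The eigenvalue exponents of a generator of a freely acting cyclic group. -/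
theorem exists_exp {Γ : Subgroup (Matrix.orthogonalGroup (Fin N) ℝ)} (hΓ : FreeOn Γ)
    {g : Matrix.orthogonalGroup (Fin N) ℝ} (hg : g ∈ Γ) (ho : orderOf g = q) :
    ∃ e : Fin N → ZMod q, (∀ i, IsUnit (e i)) ∧
      (∀ l : ℕ, (cx (g ^ l).1).charpolyRev = ∏ i, (1 - C (ψ ((l : ZMod q) * e i)) * X)) ∧
      (∀ l : ℕ, (((g ^ l).1.trace : ℝ) : ℂ) = ∑ i, ψ ((l : ZMod q) * e i)) := by
  have hq0 : 0 < orderOf g := by rw [ho]; exact Nat.pos_of_ne_zero (NeZero.ne q)
  obtain ⟨B, B', d, h1, h2, h3, h4⟩ :=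
    diag_of_pow_eq_one (cx g.1) (orderOf g) hq0 (cx_pow_orderOf g)
  have hprim : ∀ i, IsPrimitiveRoot (d i) q := by
    intro i
    obtain ⟨v, hv, hv'⟩ := h4 i
    rw [← ho]
    exact eig_primitive hΓ hg hq0 hv hv'
  have hex : ∀ i, ∃ k : ZMod q, IsUnit k ∧ ψ k = d i := by
    intro i
    obtain ⟨k, _, hk, hk'⟩ := (Complex.isPrimitiveRoot_iff (d i) q (NeZero.ne q)).mp (hprim i)
    refine ⟨(k : ZMod q), (ZMod.isUnit_iff_coprime k q).mpr hk, ?_⟩
    rw [← hk']
    have := ZMod.stdAddChar_coe (N := q) (k : ℤ)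
    rw [Int.cast_natCast] at this
    rw [ψ, this]
    congr 1
    push_cast
    ring
  choose e he hd using hex
  have hpow : ∀ l : ℕ, cx (g ^ l).1 = B * Matrix.diagonal (fun i => d i ^ l) * B' := by
    intro l
    have e1 : cx (g ^ l).1 = (cx g.1) ^ l := by
      rw [← cx_pow]; rfl
    rw [e1, h3]
    induction l with
    | zero =>
      have : (fun i => d i ^ 0) = (1 : Fin N → ℂ) := by funext i; simp
      rw [this, pow_zero]
      have h5 : Matrix.diagonal (1 : Fin N → ℂ) = 1 := Matrix.diagonal_one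
      rw [h5, Matrix.mul_one, h2]
    | succ l ih =>
      have e1 : cx (g ^ l).1 = (cx g.1) ^ l := by
        rw [← cx_pow]; rfl
      rw [pow_succ, ih e1]
      calc B * Matrix.diagonal (fun i => d i ^ l) * B' * (B * Matrix.diagonal d * B')
          = B * Matrix.diagonal (fun i => d i ^ l) * (B' * B) * Matrix.diagonal d * B' := by
            simp only [Matrix.mul_assoc]
        _ = B * (Matrix.diagonal (fun i => d i ^ l) * Matrix.diagonal d) * B' := by
            rw [h1, Matrix.mul_one, Matrix.mul_assoc B]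
        _ = _ := by
            rw [Matrix.diagonal_mul_diagonal]
            simp only [pow_succ]
  have hψ : ∀ (l : ℕ) (i : Fin N), ψ ((l : ZMod q) * e i) = d i ^ l := by
    intro l i
    rw [← hd i, ψ, ψ, ← nsmul_eq_mul, AddChar.map_nsmul_eq_pow]
  refine ⟨e, he, fun l => ?_, fun l => ?_⟩
  · rw [hpow l, charpolyRev_conj _ _ _ h1, charpolyRev_diag]
    exact Finset.prod_congr rfl fun i _ => by rw [hψ]
  · have e2 : (((g ^ l).1.trace : ℝ) : ℂ) = (cx (g ^ l).1).trace := by
      rw [Matrix.trace, Matrix.trace]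
      push_cast
      rfl
    rw [e2, hpow l, Matrix.trace_mul_comm, ← Matrix.mul_assoc, h1, Matrix.one_mul,
      Matrix.trace_diagonal]
    exact Finset.sum_congr rfl fun i _ => by rw [hψ]

/-- The number of exponents equal to `k`. -/
def cnt (e : Fin N → ZMod q) (k : ZMod q) : ℕ := (Finset.univ.filter fun i => e i = k).card

theorem prod_cnt {R : Type*} [CommMonoid R] (e : Fin N → ZMod q) (F : ZMod q → R) :
    ∏ i, F (e i) = ∏ k, F k ^ cnt e k := by
  classical
  rw [← Finset.prod_fiberwise' (Finset.univ : Finset (Fin N)) e F]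
  refine Finset.prod_congr rfl fun k _ => ?_
  rw [Finset.prod_const]
  rfl

theorem sum_cnt {R : Type*} [Semiring R] (e : Fin N → ZMod q) (F : ZMod q → R) :
    ∑ i, F (e i) = ∑ k, (cnt e k : R) * F k := by
  classical
  rw [← Finset.sum_fiberwise' (Finset.univ : Finset (Fin N)) e F]
  refine Finset.sum_congr rfl fun k _ => ?_
  rw [Finset.sum_const, nsmul_eq_mul]
  rfl

omit [NeZero q] in
theorem cnt_nonunit {e : Fin N → ZMod q} (he : ∀ i, IsUnit (e i)) {k : ZMod q}
    (hk : ¬ IsUnit k) : cnt e k = 0 := by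
  rw [cnt, Finset.card_eq_zero, Finset.filter_eq_empty_iff]
  intro i _ h
  exact hk (h ▸ he i)

/-- Traces determine the multiplicities. -/
theorem cnt_of_trace {a b : ZMod q → ℕ}
    (h : ∀ l : ZMod q, ∑ k, (a k : ℂ) * ψ (l * k) = ∑ k, (b k : ℂ) * ψ (l * k)) : a = b := by
  have h1 : ZMod.dft (fun k => (a k : ℂ)) = ZMod.dft (fun k => (b k : ℂ)) := by
    funext l
    rw [ZMod.dft_apply, ZMod.dft_apply]
    have := h (-l)
    simp only [smul_eq_mul]
    have e1 : ∀ c : ZMod q → ℕ, ∑ j, ZMod.stdAddChar (-(j * l)) * (c j : ℂ) =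
        ∑ k, (c k : ℂ) * ψ (-l * k) := by
      intro c
      refine Finset.sum_congr rfl fun j _ => ?_
      rw [mul_comm, neg_mul, mul_comm l j]
    rw [e1, e1]
    exact this
  have h2 := ZMod.dft.injective h1
  funext k
  have := congrFun h2 k
  exact_mod_cast this

/-- Evenness of the multiplicities. -/
theorem cnt_neg {g : Matrix.orthogonalGroup (Fin N) ℝ} (ho : orderOf g = q)
    {e : Fin N → ZMod q}
    (ht : ∀ l : ℕ, (((g ^ l).1.trace : ℝ) : ℂ) = ∑ i, ψ ((l : ZMod q) * e i)) (k : ZMod q) :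
    cnt e (-k) = cnt e k := by
  have key : (fun k => cnt e (-k)) = cnt e := by
    apply cnt_of_trace
    intro l
    have h1 : ∀ l : ZMod q, (((g ^ l.val).1.trace : ℝ) : ℂ) = ∑ k, (cnt e k : ℂ) * ψ (l * k) := by
      intro l
      rw [ht, sum_cnt e fun k => ψ (((l.val : ℕ) : ZMod q) * k), ZMod.natCast_zmod_val]
    have h2 : (g ^ (-l).val).1.trace = (g ^ l.val).1.trace := by
      have h3 : g ^ (-l).val = (g ^ l.val)⁻¹ := by
        rw [eq_inv_iff_mul_eq_one, ← pow_add]
        apply orderOf_dvd_iff_pow_eq_one.mp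
        rw [ho, ← ZMod.natCast_eq_zero_iff]
        push_cast
        rw [ZMod.natCast_zmod_val, ZMod.natCast_zmod_val, neg_add_cancel]
      rw [h3]
      exact trace_inv _
    have h4 : ∑ k, ((cnt e (-k) : ℕ) : ℂ) * ψ (l * k) = ∑ k, (cnt e k : ℂ) * ψ (-l * k) := by
      rw [← Equiv.sum_comp (Equiv.neg (ZMod q))]
      refine Finset.sum_congr rfl fun k _ => ?_
      rw [Equiv.neg_apply, neg_neg, mul_neg, neg_mul]
    rw [h4, ← h1 (-l), h2, h1 l]
  exact congrFun key k

end Pool.Agent.H78.Sph
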