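import Pool.Agent.H78.Sph.Cyc1

set_option autoImplicit false

/-! # The spectral identity for cyclic groups -/

namespace Pool.Agent.H78.Sph

open Polynomial Pool.Agent.Helper477.Sph

variable {N q : ℕ} [NeZero q]

/-- The units of `ℤ/q`. -/
noncomputable def UU (q : ℕ) [NeZero q] : Finset (ZMod q) := by
  classical exact Finset.univ.filter fun k => IsUnit k

theorem mem_UU {k : ZMod q} : k ∈ UU q ↔ IsUnit k := by
  unfold UU
  rw [Finset.mem_filter]
  exact ⟨fun h => h.2, fun h => ⟨Finset.mem_univ _, h⟩⟩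

theorem mul_UU {R : Type*} [CommMonoid R] {l : ZMod q} (hl : IsUnit l) (F : ZMod q → R) :
    ∏ k ∈ UU q, F (l * k) = ∏ k ∈ UU q, F k := by
  refine Finset.prod_bij' (fun k _ => l * k) (fun k _ => l⁻¹ * k) ?_ ?_ ?_ ?_ ?_
  · intro k hk
    rw [mem_UU] at hk ⊢
    exact hl.mul hk
  · intro k hk
    rw [mem_UU] at hk ⊢
    have : IsUnit l⁻¹ := by
      rw [isUnit_iff_exists_inv]
      exact ⟨l, ZMod.inv_mul_of_unit l hl⟩
    exact this.mul hk
  · intro k _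
    rw [← mul_assoc, ZMod.inv_mul_of_unit l hl, one_mul]
  · intro k _
    rw [← mul_assoc, ZMod.mul_inv_of_unit l hl, one_mul]
  · intro k _
    rfl

/-- The numerator. -/
noncomputable def NN (M : ℕ) (e : Fin N → ZMod q) (l : ZMod q) : ℂ[X] :=
  ∏ k ∈ UU q, (1 - C (ψ (l * k)) * X) ^ (M - cnt e k)

theorem NN_mul {M : ℕ} {e : Fin N → ZMod q} (he : ∀ i, IsUnit (e i)) (hM : ∀ k, cnt e k ≤ M)
    {l : ZMod q} (hl : IsUnit l) :
    NN M e l * ∏ i, (1 - C (ψ (l * e i)) * X) = ∏ k ∈ UU q, (1 - C (ψ k) * X) ^ M := by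
  rw [prod_cnt e fun k => (1 - C (ψ (l * k)) * X)]
  have h1 : ∏ k, (1 - C (ψ (l * k)) * X) ^ cnt e k =
      ∏ k ∈ UU q, (1 - C (ψ (l * k)) * X) ^ cnt e k := by
    symm
    apply Finset.prod_subset (Finset.subset_univ _)
    intro k _ hk
    rw [cnt_nonunit he (fun h => hk (mem_UU.mpr h)), pow_zero]
  rw [h1, NN, ← Finset.prod_mul_distrib, ← mul_UU hl fun k => (1 - C (ψ k) * X) ^ M]
  refine Finset.prod_congr rfl fun k _ => ?_
  rw [← pow_add, Nat.sub_add_cancel (hM k)]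

/-- The elements of full order of a cyclic group. -/
theorem part_cyc {Γ : Subgroup (Matrix.orthogonalGroup (Fin N) ℝ)} [Fintype Γ]
    {g : Matrix.orthogonalGroup (Fin N) ℝ} (ho : orderOf g = q)
    (hg : ∀ x, x ∈ Γ ↔ ∃ l : ℕ, g ^ l = x) :
    part Γ q = ∑ l ∈ UU q, tau (cx (g ^ l.val).1) := by
  classical
  unfold part
  symm
  refine Finset.sum_bij (fun (l : ZMod q) _ => (⟨g ^ l.val, (hg _).mpr ⟨_, rfl⟩⟩ : Γ)) ?_ ?_ ?_ ?_
  · intro l hl
    rw [mem_UU] at hl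
    rw [Finset.mem_filter]
    refine ⟨Finset.mem_univ _, ?_⟩
    have h1 : Nat.Coprime l.val q := by
      have := (ZMod.isUnit_iff_coprime l.val q).mp (by rwa [ZMod.natCast_zmod_val])
      exact this
    change orderOf (g ^ l.val) = q
    have h2 : Nat.Coprime (orderOf g) l.val := by
      rw [ho]; exact h1.symm
    rw [Nat.Coprime.orderOf_pow h2, ho]
  · intro a _ b _ hab
    have hab' : g ^ a.val = g ^ b.val := congrArg Subtype.val hab
    rw [pow_inj_mod, ho, Nat.mod_eq_of_lt a.val_lt, Nat.mod_eq_of_lt b.val_lt] at hab'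
    exact ZMod.val_injective q hab'
  · intro x hx
    rw [Finset.mem_filter] at hx
    obtain ⟨l, hl⟩ := (hg x.1).mp x.2
    have h2 : g ^ (l : ZMod q).val = x.1 := by
      rw [← hl, ZMod.val_natCast, pow_inj_mod, ho, Nat.mod_mod]
    refine ⟨(l : ZMod q), ?_, Subtype.ext h2⟩
    rw [mem_UU, ZMod.isUnit_iff_coprime]
    have h3 := hx.2
    rw [← hl] at h3
    have hfin : IsOfFinOrder g := by
      rw [← orderOf_pos_iff, ho]
      exact Nat.pos_of_ne_zero (NeZero.ne q)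
    rw [hfin.orderOf_pow, ho] at h3
    have hqp : 0 < q := Nat.pos_of_ne_zero (NeZero.ne q)
    have h4 := Nat.div_mul_cancel (Nat.gcd_dvd_left q l)
    rw [h3] at h4
    have h5 : Nat.gcd q l = 1 := Nat.eq_of_mul_eq_mul_left hqp (by rw [h4, mul_one])
    rw [Nat.Coprime, Nat.gcd_comm]
    exact h5
  · intro l _
    rfl

/-- The sum of the numerators is determined by the Molien series. -/
theorem sum_NN {Γ : Subgroup (Matrix.orthogonalGroup (Fin N) ℝ)} [Fintype Γ]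
    {g : Matrix.orthogonalGroup (Fin N) ℝ} (ho : orderOf g = q)
    (hg : ∀ x, x ∈ Γ ↔ ∃ l : ℕ, g ^ l = x) {e : Fin N → ZMod q} (he : ∀ i, IsUnit (e i))
    (hc : ∀ l : ℕ, (cx (g ^ l).1).charpolyRev = ∏ i, (1 - C (ψ ((l : ZMod q) * e i)) * X))
    {M : ℕ} (hM : ∀ k, cnt e k ≤ M) :
    ((∑ l ∈ UU q, NN M e l : ℂ[X]) : PowerSeries ℂ) =
      part Γ q * ((∏ k ∈ UU q, (1 - C (ψ k) * X) ^ M : ℂ[X]) : PowerSeries ℂ) := by
  rw [part_cyc ho hg, Finset.sum_mul]
  have hc' : ∀ p : ℂ[X], (p : PowerSeries ℂ) = Polynomial.coeToPowerSeries.ringHom p :=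
    fun p => rfl
  rw [hc', map_sum]
  refine Finset.sum_congr rfl fun l hl => ?_
  rw [mem_UU] at hl
  rw [← hc', ← NN_mul he hM hl, Polynomial.coe_mul]
  have h1 : (cx (g ^ l.val).1) ^ q = 1 := by
    rw [← cx_pow]
    have h2 : (g ^ l.val).1 ^ q = 1 := by
      have h3 : (g ^ l.val) ^ q = 1 := by
        have h5 : g ^ q = 1 := by
          have := pow_orderOf_eq_one g
          rwa [ho] at this
        rw [← pow_mul, mul_comm, pow_mul, h5, one_pow]
      exact congrArg Subtype.val h3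
    rw [h2]
    exact cx_one
  have h4 := tau_mul_charpolyRev _ q (Nat.pos_of_ne_zero (NeZero.ne q)) h1
  rw [hc, ZMod.natCast_zmod_val] at h4
  linear_combination -(NN M e l : PowerSeries ℂ) * h4

/-- Twice the cosine. -/
noncomputable def cc (a : ZMod q) : ℂ := ψ a + ψ (-a)

theorem cc_neg (a : ZMod q) : cc (-a) = cc a := by
  unfold cc
  rw [neg_neg, add_comm]

theorem exists_z (u : ℂ) : ∃ z : ℂ, z ≠ 0 ∧ 1 + z ^ 2 = z * u := by
  obtain ⟨s, hs⟩ := IsAlgClosed.exists_pow_nat_eq (u ^ 2 - 4) (n := 2) (by norm_num)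
  refine ⟨(u + s) / 2, ?_, ?_⟩
  · intro h
    have h1 : (u + s) / 2 * ((u - s) / 2) = 1 := by
      linear_combination (-1 / 4 : ℂ) * hs
    rw [h, zero_mul] at h1
    exact zero_ne_one h1
  · linear_combination (1 / 4 : ℂ) * hs

/-- Products over the units of an even function. -/
theorem prod_half {R : Type*} [CommMonoid R] {H : Finset (ZMod q)}
    (hH : ∀ k, IsUnit k ↔ (k ∈ H ∨ -k ∈ H)) (hd : ∀ k ∈ H, -k ∉ H) (F : ZMod q → R) :
    ∏ k ∈ UU q, F k = ∏ k ∈ H, (F k * F (-k)) := by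
  classical
  have h1 : UU q = H ∪ H.map (Equiv.neg (ZMod q)).toEmbedding := by
    ext k
    rw [mem_UU, hH, Finset.mem_union, Finset.mem_map]
    constructor
    · rintro (h | h)
      · exact Or.inl h
      · exact Or.inr ⟨-k, h, by simp⟩
    · rintro (h | ⟨a, ha, rfl⟩)
      · exact Or.inl h
      · right
        simpa using ha
  have h2 : Disjoint H (H.map (Equiv.neg (ZMod q)).toEmbedding) := by
    rw [Finset.disjoint_left]
    intro k hk hk'
    rw [Finset.mem_map] at hk'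
    obtain ⟨a, ha, rfl⟩ := hk'
    exact hd a ha (by simpa using hk)
  rw [h1, Finset.prod_union h2, Finset.prod_map, Finset.prod_mul_distrib]
  rfl

theorem sum_half {R : Type*} [AddCommMonoid R] {H : Finset (ZMod q)}
    (hH : ∀ k, IsUnit k ↔ (k ∈ H ∨ -k ∈ H)) (hd : ∀ k ∈ H, -k ∉ H) (F : ZMod q → R) :
    ∑ k ∈ UU q, F k = ∑ k ∈ H, (F k + F (-k)) :=
  prod_half (R := Multiplicative R) hH hd F

/-- Evaluation of the numerators. -/
theorem eval_NN {M : ℕ} {e : Fin N → ZMod q} (hev : ∀ k, cnt e (-k) = cnt e k)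
    {H : Finset (ZMod q)} (hH : ∀ k, IsUnit k ↔ (k ∈ H ∨ -k ∈ H)) (hd : ∀ k ∈ H, -k ∉ H)
    (l : ZMod q) {u z : ℂ} (hz : 1 + z ^ 2 = z * u) :
    (NN M e l).eval z = z ^ (∑ k ∈ H, (M - cnt e k)) *
      ∏ k ∈ H, (u - cc (l * k)) ^ (M - cnt e k) := by
  rw [NN, prod_half hH hd, eval_prod, ← Finset.prod_pow_eq_pow_sum, ← Finset.prod_mul_distrib]
  refine Finset.prod_congr rfl fun k _ => ?_
  rw [hev, ← mul_pow, eval_pow, ← mul_pow]
  congr 1
  have h1 : ψ (l * k) * ψ (l * -k) = 1 := by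
    rw [mul_neg]
    exact psi_mul_neg (l * k)
  simp only [eval_mul, eval_sub, eval_one, eval_C, eval_X]
  unfold cc
  rw [mul_neg] at h1 ⊢
  linear_combination (z ^ 2) * h1 + hz

theorem sum_cnt_half {e : Fin N → ZMod q} (he : ∀ i, IsUnit (e i))
    (hev : ∀ k, cnt e (-k) = cnt e k)
    {H : Finset (ZMod q)} (hH : ∀ k, IsUnit k ↔ (k ∈ H ∨ -k ∈ H)) (hd : ∀ k ∈ H, -k ∉ H) :
    2 * ∑ k ∈ H, cnt e k = N := by
  have h1 := sum_cnt (R := ℕ) e fun _ => 1
  simp only [Finset.sum_const, Finset.card_univ, Fintype.card_fin, smul_eq_mul, mul_one,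
    Nat.cast_id] at h1
  have h2 : ∑ k, cnt e k = ∑ k ∈ UU q, cnt e k := by
    symm
    apply Finset.sum_subset (Finset.subset_univ _)
    intro k _ hk
    exact cnt_nonunit he (fun h => hk (mem_UU.mpr h))
  rw [h2, sum_half hH hd] at h1
  refine Eq.trans ?_ h1.symm
  rw [Finset.mul_sum]
  refine Finset.sum_congr rfl fun k _ => ?_
  rw [hev]; ring

/-- **The spectral identity for cyclic groups.** -/
theorem spectral {Γ Γ' : Subgroup (Matrix.orthogonalGroup (Fin N) ℝ)} [Finite Γ] [Finite Γ']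
    (hΓ : FreeOn Γ) (hΓ' : FreeOn Γ') (hN : 0 < N) (hh : hilb Γ = hilb Γ')
    {g g' : Matrix.orthogonalGroup (Fin N) ℝ} (ho : orderOf g = q) (ho' : orderOf g' = q)
    (hg : ∀ x, x ∈ Γ ↔ ∃ l : ℕ, g ^ l = x) (hg' : ∀ x, x ∈ Γ' ↔ ∃ l : ℕ, g' ^ l = x)
    {e e' : Fin N → ZMod q} (he : ∀ i, IsUnit (e i)) (he' : ∀ i, IsUnit (e' i))
    (hc : ∀ l : ℕ, (cx (g ^ l).1).charpolyRev = ∏ i, (1 - C (ψ ((l : ZMod q) * e i)) * X))
    (hc' : ∀ l : ℕ, (cx (g' ^ l).1).charpolyRev = ∏ i, (1 - C (ψ ((l : ZMod q) * e' i)) * X))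
    (hev : ∀ k, cnt e (-k) = cnt e k) (hev' : ∀ k, cnt e' (-k) = cnt e' k)
    {M : ℕ} (hM : ∀ k, cnt e k ≤ M) (hM' : ∀ k, cnt e' k ≤ M)
    {H : Finset (ZMod q)} (hH : ∀ k, IsUnit k ↔ (k ∈ H ∨ -k ∈ H)) (hd : ∀ k ∈ H, -k ∉ H)
    (u : ℂ) :
    ∑ l ∈ H, ∏ k ∈ H, (u - cc (l * k)) ^ (M - cnt e k) =
      ∑ l ∈ H, ∏ k ∈ H, (u - cc (l * k)) ^ (M - cnt e' k) := by
  classical
  have := Fintype.ofFinite Γ
  have := Fintype.ofFinite Γ'
  have hp : part Γ q = part Γ' q :=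
    (sep hΓ hΓ' hN hh).2 q (Nat.pos_of_ne_zero (NeZero.ne q))
  have h1 := sum_NN ho hg he hc hM
  have h2 := sum_NN ho' hg' he' hc' hM'
  rw [hp, ← h2] at h1
  have h3 : ∑ l ∈ UU q, NN M e l = ∑ l ∈ UU q, NN M e' l := Polynomial.coe_injective ℂ h1
  obtain ⟨z, hz0, hz⟩ := exists_z u
  have h4 := congrArg (eval z) h3
  rw [eval_finsetSum, eval_finsetSum] at h4
  have key : ∀ (f : Fin N → ZMod q), (∀ i, IsUnit (f i)) → (∀ k, cnt f (-k) = cnt f k) →
      (∀ k, cnt f k ≤ M) →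
      ∑ l ∈ UU q, eval z (NN M f l) = z ^ (H.card * M - N / 2) * (2 *
        ∑ l ∈ H, ∏ k ∈ H, (u - cc (l * k)) ^ (M - cnt f k)) := by
    intro f hf hfe hfM
    have h5 : ∑ k ∈ H, (M - cnt f k) = H.card * M - N / 2 := by
      have h6 := sum_cnt_half hf hfe hH hd
      have h7 : ∑ k ∈ H, (M - cnt f k) + ∑ k ∈ H, cnt f k = H.card * M := by
        rw [← Finset.sum_add_distrib, Finset.sum_congr rfl fun k _ => Nat.sub_add_cancel (hfM k),
          Finset.sum_const, smul_eq_mul]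
      omega
    rw [sum_half hH hd, Finset.mul_sum, Finset.mul_sum]
    refine Finset.sum_congr rfl fun l _ => ?_
    rw [eval_NN hfe hH hd l hz, eval_NN hfe hH hd (-l) hz, h5]
    simp only [neg_mul, cc_neg]
    ring
  rw [key e he hev hM, key e' he' hev' hM'] at h4
  have h5 := mul_left_cancel₀ (pow_ne_zero _ hz0) h4
  exact mul_left_cancel₀ two_ne_zero h5

end Pool.Agent.H78.Sph
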