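import Pool.Agent.H78.Sph.Cyc2

set_option autoImplicit false

/-! # Conjugacy from multiplicities -/

namespace Pool.Agent.H78.Sph

open Polynomial Pool.Agent.Helper477.Sph

variable {N q : ℕ} [NeZero q]

/-- The homomorphism `ℤ/q → O(N)` defined by an element of order dividing `q`. -/
noncomputable def homOf {g : Matrix.orthogonalGroup (Fin N) ℝ} (h : g ^ q = 1) :
    Multiplicative (ZMod q) →* Matrix.orthogonalGroup (Fin N) ℝ where
  toFun l := g ^ (Multiplicative.toAdd l).val
  map_one' := by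
    rw [toAdd_one, ZMod.val_zero, pow_zero]
  map_mul' a b := by
    rw [toAdd_mul, ZMod.val_add, ← pow_add]
    conv_rhs => rw [← Nat.mod_add_div ((Multiplicative.toAdd a).val +
      (Multiplicative.toAdd b).val) q, pow_add, pow_mul, h, one_pow, mul_one]

/-- If the multiplicities agree up to a unit, the groups are conjugate. -/
theorem conj_of_cnt {Γ Γ' : Subgroup (Matrix.orthogonalGroup (Fin N) ℝ)} [Finite Γ] [Finite Γ']
    {g g' : Matrix.orthogonalGroup (Fin N) ℝ} (ho : orderOf g = q) (ho' : orderOf g' = q)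
    (hg : ∀ x, x ∈ Γ ↔ ∃ l : ℕ, g ^ l = x) (hg' : ∀ x, x ∈ Γ' ↔ ∃ l : ℕ, g' ^ l = x)
    (hcard : Nat.card Γ = Nat.card Γ')
    {e e' : Fin N → ZMod q}
    (ht : ∀ l : ℕ, (((g ^ l).1.trace : ℝ) : ℂ) = ∑ i, ψ ((l : ZMod q) * e i))
    (ht' : ∀ l : ℕ, (((g' ^ l).1.trace : ℝ) : ℂ) = ∑ i, ψ ((l : ZMod q) * e' i))
    {w : ZMod q} (hw : IsUnit w) (h : ∀ k, cnt e' k = cnt e (w * k)) : Conj Γ Γ' := by
  have hgq : g ^ q = 1 := by
    have := pow_orderOf_eq_one g
    rwa [ho] at this
  have hgq' : g' ^ q = 1 := by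
    have := pow_orderOf_eq_one g'
    rwa [ho'] at this
  set m : ℕ := (w⁻¹ : ZMod q).val with hm
  have hgm : (g ^ m) ^ q = 1 := by
    rw [← pow_mul, mul_comm, pow_mul, hgq, one_pow]
  have hwi : (w : ZMod q) * w⁻¹ = 1 := ZMod.mul_inv_of_unit w hw
  -- traces
  have htr : ∀ l : Multiplicative (ZMod q), (homOf hgm l).1.trace = (homOf hgq' l).1.trace := by
    intro l
    set x := Multiplicative.toAdd l with hx
    have h1 : (((homOf hgm l).1.trace : ℝ) : ℂ) = (((homOf hgq' l).1.trace : ℝ) : ℂ) := by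
      change ((((g ^ m) ^ x.val).1.trace : ℝ) : ℂ) = (((g' ^ x.val).1.trace : ℝ) : ℂ)
      rw [← pow_mul, ht, ht', sum_cnt e fun k => ψ (((m * x.val : ℕ) : ZMod q) * k),
        sum_cnt e' fun k => ψ (((x.val : ℕ) : ZMod q) * k)]
      push_cast
      rw [hm, ZMod.natCast_zmod_val, ZMod.natCast_zmod_val]
      refine Fintype.sum_bijective (fun k => w⁻¹ * k) ?_ _ _ ?_
      · refine Function.bijective_iff_has_inverse.mpr ⟨fun k => w * k, ?_, ?_⟩
        · intro k
          simp only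
          rw [← mul_assoc, hwi, one_mul]
        · intro k
          simp only
          rw [← mul_assoc, mul_comm _ w, hwi, one_mul]
      · intro k
        rw [h, ← mul_assoc, hwi, one_mul, mul_comm w⁻¹ x, mul_assoc]
    exact_mod_cast h1
  obtain ⟨A, hA⟩ := char_conj _ _ htr
  apply conj_of_subset A _ hcard
  -- the generator goes to a power
  have h2 : A * (g ^ m) = g' * A ∨ q = 1 := by
    by_cases hq1 : q = 1
    · exact Or.inr hq1
    · left
      have h3 := hA (Multiplicative.ofAdd 1)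
      have h4 : ∀ y : Matrix.orthogonalGroup (Fin N) ℝ, ∀ hy : y ^ q = 1,
          homOf hy (Multiplicative.ofAdd 1) = y := by
        intro y hy
        change y ^ (1 : ZMod q).val = y
        have : Fact (1 < q) := ⟨by
          have := Nat.pos_of_ne_zero (NeZero.ne q)
          omega⟩
        rw [ZMod.val_one, pow_one]
      rwa [h4, h4] at h3
  have h5 : A * (g ^ m) * A⁻¹ ∈ Γ' := by
    rcases h2 with h2 | h2
    · rw [h2, mul_assoc, mul_inv_cancel, mul_one]
      exact (hg' _).mpr ⟨1, pow_one _⟩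
    · have h6 : g = 1 := by rw [← pow_one g, ← h2, hgq]
      rw [h6, one_pow, mul_one, mul_inv_cancel]
      exact Γ'.one_mem
  intro x hx
  obtain ⟨l, rfl⟩ := (hg x).mp hx
  have h6 : g ^ l = (g ^ m) ^ (w.val * l) := by
    rw [← pow_mul, pow_inj_mod, ho]
    have h7 : ((m * (w.val * l) : ℕ) : ZMod q) = (l : ZMod q) := by
      push_cast
      rw [hm, ZMod.natCast_zmod_val, ZMod.natCast_zmod_val, ← mul_assoc, mul_comm _ w, hwi,
        one_mul]
    exact ((ZMod.natCast_eq_natCast_iff _ _ _).mp h7).symm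
  rw [h6, ← conj_pow]
  exact Γ'.pow_mem h5 _

end Pool.Agent.H78.Sph
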