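import Pool.Agent.H78.Sph.Small2

set_option autoImplicit false

/-! # Cyclic groups of order at most ten are spectrally rigid -/

namespace Pool.Agent.H78.Sph

open Pool.Agent.Helper477.Sph

variable {N q : ℕ}

theorem conj_of_twin [NeZero q] (H : Finset (ZMod q))
    (hH : ∀ k, IsUnit k ↔ (k ∈ H ∨ -k ∈ H)) (hd : ∀ k ∈ H, -k ∉ H)
    (hT : ∀ a a' : ZMod q → ℕ, Twin q H a a' → Same q a a')
    {Γ Γ' : Subgroup (Matrix.orthogonalGroup (Fin N) ℝ)} [Finite Γ] [Finite Γ']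
    (hΓ : FreeOn Γ) (hΓ' : FreeOn Γ') (hN : 0 < N) (hh : hilb Γ = hilb Γ')
    {g g' : Matrix.orthogonalGroup (Fin N) ℝ} (ho : orderOf g = q) (ho' : orderOf g' = q)
    (hg : ∀ x, x ∈ Γ ↔ ∃ l : ℕ, g ^ l = x) (hg' : ∀ x, x ∈ Γ' ↔ ∃ l : ℕ, g' ^ l = x)
    (hcard : Nat.card Γ = Nat.card Γ') : Conj Γ Γ' := by
  have hgm : g ∈ Γ := (hg _).mpr ⟨1, pow_one _⟩
  have hgm' : g' ∈ Γ' := (hg' _).mpr ⟨1, pow_one _⟩
  obtain ⟨e, he, hc, ht⟩ := exists_exp hΓ hgm ho
  obtain ⟨e', he', hc', ht'⟩ := exists_exp hΓ' hgm' ho'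
  have hev := cnt_neg ho ht
  have hev' := cnt_neg ho' ht'
  obtain ⟨w, hw, hw'⟩ := hT (cnt e) (cnt e')
    { z := fun k hk => cnt_nonunit he hk
      z' := fun k hk => cnt_nonunit he' hk
      ev := hev
      ev' := hev'
      sum := by
        have h1 := sum_cnt_half he hev hH hd
        have h2 := sum_cnt_half he' hev' hH hd
        omega
      id := fun M hM hM' u => spectral hΓ hΓ' hN hh ho ho' hg hg' he he' hc hc' hev hev' hM hM'
        hH hd u }
  exact conj_of_cnt ho ho' hg hg' hcard ht ht' hw hw'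

theorem conj_of_all_one [NeZero q] (hq : ∀ k : ZMod q, IsUnit k → k = 1)
    {Γ Γ' : Subgroup (Matrix.orthogonalGroup (Fin N) ℝ)} [Finite Γ] [Finite Γ']
    (hΓ : FreeOn Γ) (hΓ' : FreeOn Γ')
    {g g' : Matrix.orthogonalGroup (Fin N) ℝ} (ho : orderOf g = q) (ho' : orderOf g' = q)
    (hg : ∀ x, x ∈ Γ ↔ ∃ l : ℕ, g ^ l = x) (hg' : ∀ x, x ∈ Γ' ↔ ∃ l : ℕ, g' ^ l = x)
    (hcard : Nat.card Γ = Nat.card Γ') : Conj Γ Γ' := by
  have hgm : g ∈ Γ := (hg _).mpr ⟨1, pow_one _⟩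
  have hgm' : g' ∈ Γ' := (hg' _).mpr ⟨1, pow_one _⟩
  obtain ⟨e, he, hc, ht⟩ := exists_exp hΓ hgm ho
  obtain ⟨e', he', hc', ht'⟩ := exists_exp hΓ' hgm' ho'
  have h : e = e' := by
    funext i
    rw [hq _ (he i), hq _ (he' i)]
  subst h
  exact conj_of_cnt ho ho' hg hg' hcard ht ht' isUnit_one fun k => by rw [one_mul]

theorem isUnit_dec {q : ℕ} {P : ZMod q → Prop}
    (h1 : ∀ k, P k → ∃ m, k * m = 1) (h2 : ∀ k, ¬ P k → ∀ m, k * m ≠ 1) (k : ZMod q) :
    IsUnit k ↔ P k := by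
  constructor
  · intro h
    by_contra hc
    obtain ⟨m, hm⟩ := isUnit_iff_exists_inv.mp h
    exact h2 k hc m hm
  · intro h
    exact isUnit_iff_exists_inv.mpr (h1 k h)

/-- **Rigidity.** Isospectral freely acting cyclic groups of order at most ten are conjugate. -/
theorem rigid_cyclic {Γ Γ' : Subgroup (Matrix.orthogonalGroup (Fin N) ℝ)} [Finite Γ] [Finite Γ']
    (hΓ : FreeOn Γ) (hΓ' : FreeOn Γ') (hN : 0 < N) (hh : hilb Γ = hilb Γ')
    (hc : IsCyclic Γ) (hc' : IsCyclic Γ') (hle : Nat.card Γ ≤ 10) : Conj Γ Γ' := by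
  classical
  have hcard : Nat.card Γ = Nat.card Γ' := by
    have : Fintype Γ := Fintype.ofFinite _
    have : Fintype Γ' := Fintype.ofFinite _
    rw [Nat.card_eq_fintype_card, Nat.card_eq_fintype_card]
    exact (sep hΓ hΓ' hN hh).1
  have gen : ∀ (Δ : Subgroup (Matrix.orthogonalGroup (Fin N) ℝ)) [Finite Δ], IsCyclic Δ →
      ∃ g : Matrix.orthogonalGroup (Fin N) ℝ, orderOf g = Nat.card Δ ∧
        ∀ x, x ∈ Δ ↔ ∃ l : ℕ, g ^ l = x := by
    intro Δ _ h
    obtain ⟨g, hg⟩ := h.exists_generator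
    refine ⟨g.1, ?_, fun x => ⟨fun hx => ?_, ?_⟩⟩
    · rw [Subgroup.orderOf_coe]
      exact orderOf_eq_card_of_forall_mem_zpowers hg
    · have h1 := hg ⟨x, hx⟩
      rw [mem_zpowers_iff_mem_range_orderOf] at h1
      obtain ⟨l, _, hl⟩ := Finset.mem_image.mp h1
      exact ⟨l, congrArg Subtype.val hl⟩
    · rintro ⟨l, rfl⟩
      exact Δ.pow_mem g.2 l
  obtain ⟨g, ho, hg⟩ := gen Γ hc
  obtain ⟨g', ho', hg'⟩ := gen Γ' hc'
  rw [← hcard] at ho'
  have hpos : 0 < Nat.card Γ := Nat.card_pos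
  generalize hqe : Nat.card Γ = q at *
  interval_cases q
  · exact conj_of_all_one (q := 1) (fun k _ => Subsingleton.elim _ _) hΓ hΓ' ho ho' hg hg'
      (hqe.trans hcard)
  · refine conj_of_all_one (q := 2) (fun k hk => ?_) hΓ hΓ' ho ho' hg hg' (hqe.trans hcard)
    obtain ⟨m, hm⟩ := isUnit_iff_exists_inv.mp hk
    revert k m
    decide
  · exact conj_of_twin (q := 3) {1} (isUnit_dec (by decide +kernel) (by decide +kernel)) (by decide +kernel)
      (fun _ _ => twin3) hΓ hΓ' hN hh ho ho' hg hg' (hqe.trans hcard)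
  · exact conj_of_twin (q := 4) {1} (isUnit_dec (by decide +kernel) (by decide +kernel)) (by decide +kernel)
      (fun _ _ => twin4) hΓ hΓ' hN hh ho ho' hg hg' (hqe.trans hcard)
  · exact conj_of_twin (q := 5) {1, 2} (isUnit_dec (by decide +kernel) (by decide +kernel)) (by decide +kernel)
      (fun _ _ => twin5) hΓ hΓ' hN hh ho ho' hg hg' (hqe.trans hcard)
  · exact conj_of_twin (q := 6) {1} (isUnit_dec (by decide +kernel) (by decide +kernel)) (by decide +kernel)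
      (fun _ _ => twin6) hΓ hΓ' hN hh ho ho' hg hg' (hqe.trans hcard)
  · exact conj_of_twin (q := 7) {1, 2, 3} (isUnit_dec (by decide +kernel) (by decide +kernel)) (by decide +kernel)
      (fun _ _ => twin7) hΓ hΓ' hN hh ho ho' hg hg' (hqe.trans hcard)
  · exact conj_of_twin (q := 8) {1, 3} (isUnit_dec (by decide +kernel) (by decide +kernel)) (by decide +kernel)
      (fun _ _ => twin8) hΓ hΓ' hN hh ho ho' hg hg' (hqe.trans hcard)
  · exact conj_of_twin (q := 9) {1, 2, 4} (isUnit_dec (by decide +kernel) (by decide +kernel)) (by decide +kernel)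
      (fun _ _ => twin9) hΓ hΓ' hN hh ho ho' hg hg' (hqe.trans hcard)
  · exact conj_of_twin (q := 10) {1, 3} (isUnit_dec (by decide +kernel) (by decide +kernel)) (by decide +kernel)
      (fun _ _ => twin10) hΓ hΓ' hN hh ho ho' hg hg' (hqe.trans hcard)

end Pool.Agent.H78.Sph
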