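import Pool.Agent.H78.Sph.Cyc3

set_option autoImplicit false

/-! # Multiplicity functions for small orders -/

namespace Pool.Agent.H78.Sph

open Pool.Agent.Helper477.Sph

/-- Two multiplicity functions satisfying the spectral identity at the first pole. -/
structure Twin (q : ℕ) [NeZero q] (H : Finset (ZMod q)) (a a' : ZMod q → ℕ) : Prop where
  z : ∀ k, ¬ IsUnit k → a k = 0
  z' : ∀ k, ¬ IsUnit k → a' k = 0
  ev : ∀ k, a (-k) = a k
  ev' : ∀ k, a' (-k) = a' k
  sum : ∑ k ∈ H, a k = ∑ k ∈ H, a' k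
  id : ∀ M, (∀ k, a k ≤ M) → (∀ k, a' k ≤ M) → ∀ u : ℂ,
    ∑ l ∈ H, ∏ k ∈ H, (u - cc (l * k)) ^ (M - a k) =
      ∑ l ∈ H, ∏ k ∈ H, (u - cc (l * k)) ^ (M - a' k)

theorem cc_inj {q : ℕ} [NeZero q] {a b : ZMod q} (h : cc a = cc b) : a = b ∨ a = -b := by
  have h1 : (ψ a - ψ b) * (1 - ψ (-a) * ψ (-b)) = 0 := by
    have e1 : ψ a * ψ (-a) = 1 := psi_mul_neg a
    have e2 : ψ b * ψ (-b) = 1 := psi_mul_neg b
    unfold cc at h
    linear_combination h - ψ (-b) * e1 + ψ (-a) * e2
  rcases mul_eq_zero.mp h1 with h2 | h2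
  · left
    exact ZMod.injective_stdAddChar (sub_eq_zero.mp h2)
  · right
    have h3 : ψ (-a) * ψ (-b) = 1 := (sub_eq_zero.mp h2).symm
    have h4 : ψ (-a) = ψ b := by
      have e2 : ψ b * ψ (-b) = 1 := psi_mul_neg b
      have hb : ψ (-b) ≠ 0 := right_ne_zero_of_mul_eq_one h3
      apply mul_right_cancel₀ hb
      rw [h3, e2]
    have h5 := ZMod.injective_stdAddChar h4
    rw [← h5, neg_neg]

/-- Rank two. -/
theorem rank_two {α : ℂ} (hα : α ≠ 0) {x y x' y' : ℕ} (hs : x + y = x' + y')
    (h0 : x = 0 ∨ y = 0 ∨ x' = 0 ∨ y' = 0)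
    (h : (0 : ℂ) ^ x * α ^ y + α ^ x * 0 ^ y = 0 ^ x' * α ^ y' + α ^ x' * 0 ^ y') :
    (x' = x ∧ y' = y) ∨ (x' = y ∧ y' = x) := by
  rcases Nat.eq_zero_or_pos x with hx | hx
  · rcases Nat.eq_zero_or_pos x' with hx' | hx'
    · left; omega
    · rcases Nat.eq_zero_or_pos y' with hy' | hy'
      · right; omega
      · exfalso
        subst hx
        rw [zero_pow hx'.ne', zero_pow hy'.ne'] at h
        rcases Nat.eq_zero_or_pos y with hy | hy
        · subst hy
          norm_num at h
        · rw [zero_pow hy.ne'] at h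
          have := pow_ne_zero y hα
          simp at h
          exact this (by simp [h])
  · rcases Nat.eq_zero_or_pos y with hy | hy
    · rcases Nat.eq_zero_or_pos x' with hx' | hx'
      · right; omega
      · rcases Nat.eq_zero_or_pos y' with hy' | hy'
        · left; omega
        · exfalso
          subst hy
          rw [zero_pow hx'.ne', zero_pow hy'.ne', zero_pow hx.ne'] at h
          have := pow_ne_zero x hα
          simp at h
          exact this (by simp [h])
    · rw [zero_pow hx.ne', zero_pow hy.ne'] at h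
      rcases Nat.eq_zero_or_pos x' with hx' | hx'
      · exfalso
        subst hx'
        have hy' : 0 < y' := by omega
        rw [zero_pow hy'.ne'] at h
        have := pow_ne_zero y' hα
        simp at h
        exact this (by simp [← h])
      · have hy' : y' = 0 := by omega
        exfalso
        subst hy'
        rw [zero_pow hx'.ne'] at h
        have := pow_ne_zero x' hα
        simp at h
        exact this (by simp [← h])

/-- The rank three sum. -/
noncomputable def S3 (α β : ℝ) (x y z : ℕ) : ℝ :=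
  0 ^ x * α ^ y * β ^ z + 0 ^ y * α ^ z * β ^ x + 0 ^ z * α ^ x * β ^ y

theorem S3_rot (α β : ℝ) (x y z : ℕ) : S3 α β y z x = S3 α β x y z := by
  unfold S3; ring

theorem S3_pos {α β : ℝ} (hα : 0 < α) (hβ : 0 < β) {y z : ℕ} : 0 < S3 α β 0 y z := by
  unfold S3
  have h1 : 0 < α ^ y * β ^ z := by positivity
  have h2 : 0 ≤ (0 : ℝ) ^ y * α ^ z * β ^ 0 := by positivity
  have h3 : 0 ≤ (0 : ℝ) ^ z * α ^ 0 * β ^ y := by positivity
  rw [pow_zero, one_mul]
  linarith

theorem S3_zero {α β : ℝ} {x y z : ℕ} (hx : 0 < x) (hy : 0 < y) (hz : 0 < z) :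
    S3 α β x y z = 0 := by
  unfold S3
  rw [zero_pow hx.ne', zero_pow hy.ne', zero_pow hz.ne']
  ring

theorem rank_three_aux {α β : ℝ} (hα : 0 < α) (hαβ : α < β) {y z y' z' : ℕ}
    (hs : y + z = y' + z') (h : S3 α β 0 y z = S3 α β 0 y' z') :
    (y' = y ∧ z' = z) ∨ (y' = z ∧ z' = y ∧ (y = 0 ∨ z = 0)) := by
  have hβ : 0 < β := hα.trans hαβ
  set t := α / β with ht
  have ht0 : 0 < t := div_pos hα hβ
  have ht1 : t < 1 := (div_lt_one hβ).mpr hαβ
  have hαt : α = t * β := by rw [ht]; field_simp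
  have form : ∀ y z : ℕ, 0 < y → 0 < z → S3 α β 0 y z = t ^ y * β ^ (y + z) := by
    intro y z hy hz
    unfold S3
    rw [zero_pow hy.ne', zero_pow hz.ne', hαt]
    ring
  have form2 : ∀ y : ℕ, 0 < y → S3 α β 0 y 0 = (1 + t ^ y) * β ^ y ∧
      S3 α β 0 0 y = (1 + t ^ y) * β ^ y := by
    intro y hy
    unfold S3
    rw [zero_pow hy.ne', hαt]
    constructor <;> ring
  have lt1 : ∀ y z : ℕ, 0 < y → t ^ y < 1 + t ^ z := by
    intro y z hy
    have h1 : t ^ y < 1 := pow_lt_one₀ ht0.le ht1 hy.ne'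
    have h2 : 0 < t ^ z := pow_pos ht0 z
    linarith
  rcases Nat.eq_zero_or_pos y with hy | hy
  · subst hy
    rcases Nat.eq_zero_or_pos z with hz | hz
    · left; omega
    · rcases Nat.eq_zero_or_pos y' with hy' | hy'
      · left; omega
      · rcases Nat.eq_zero_or_pos z' with hz' | hz'
        · right; omega
        · exfalso
          rw [form y' z' hy' hz', (form2 z hz).2, show y' + z' = z by omega] at h
          have := mul_right_cancel₀ (pow_pos hβ z).ne' h
          exact absurd this (lt1 y' z hy').ne'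
  · rcases Nat.eq_zero_or_pos z with hz | hz
    · subst hz
      rcases Nat.eq_zero_or_pos y' with hy' | hy'
      · right; omega
      · rcases Nat.eq_zero_or_pos z' with hz' | hz'
        · left; omega
        · exfalso
          rw [form y' z' hy' hz', (form2 y hy).1, show y' + z' = y by omega] at h
          have := mul_right_cancel₀ (pow_pos hβ y).ne' h
          exact absurd this (lt1 y' y hy').ne'
    · rw [form y z hy hz] at h
      rcases Nat.eq_zero_or_pos y' with hy' | hy'
      · exfalso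
        subst hy'
        have hz' : 0 < z' := by omega
        rw [(form2 z' hz').2, show y + z = z' by omega] at h
        have := mul_right_cancel₀ (pow_pos hβ z').ne' h
        exact absurd this (lt1 y z' hy).ne
      · rcases Nat.eq_zero_or_pos z' with hz' | hz'
        · exfalso
          subst hz'
          rw [(form2 y' hy').1, show y + z = y' by omega] at h
          have := mul_right_cancel₀ (pow_pos hβ y').ne' h
          exact absurd this (lt1 y y' hy).ne
        · rw [form y' z' hy' hz', hs] at h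
          have h1 := mul_right_cancel₀ (pow_pos hβ _).ne' h
          have h2 := pow_right_injective₀ ht0 ht1.ne h1
          left
          omega

/-- Rank three. -/
theorem rank_three {α β : ℝ} (hα : 0 < α) (hαβ : α < β) {x y z x' y' z' : ℕ}
    (hs : x + y + z = x' + y' + z')
    (h0 : x = 0 ∨ y = 0 ∨ z = 0 ∨ x' = 0 ∨ y' = 0 ∨ z' = 0)
    (h : S3 α β x y z = S3 α β x' y' z') :
    (x' = x ∧ y' = y ∧ z' = z) ∨ (x' = y ∧ y' = z ∧ z' = x) ∨ (x' = z ∧ y' = x ∧ z' = y) := by
  have hβ : 0 < β := hα.trans hαβ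
  -- positivity on both sides
  have pos : ∀ {x y z : ℕ}, (x = 0 ∨ y = 0 ∨ z = 0) → 0 < S3 α β x y z := by
    rintro x y z (rfl | rfl | rfl)
    · exact S3_pos hα hβ
    · rw [← S3_rot]; exact S3_pos hα hβ
    · rw [← S3_rot, ← S3_rot]; exact S3_pos hα hβ
  have pos' : ∀ {x y z : ℕ}, 0 < S3 α β x y z → (x = 0 ∨ y = 0 ∨ z = 0) := by
    intro x y z h
    by_contra hc
    push Not at hc
    rw [S3_zero (Nat.pos_of_ne_zero hc.1) (Nat.pos_of_ne_zero hc.2.1)
      (Nat.pos_of_ne_zero hc.2.2)] at h
    exact lt_irrefl _ h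
  have hb : (x = 0 ∨ y = 0 ∨ z = 0) ∧ (x' = 0 ∨ y' = 0 ∨ z' = 0) := by
    rcases h0 with h0 | h0 | h0 | h0 | h0 | h0
    · have h1 := pos (x := x) (y := y) (z := z) (by omega)
      exact ⟨by omega, pos' (h ▸ h1)⟩
    · have h1 := pos (x := x) (y := y) (z := z) (by omega)
      exact ⟨by omega, pos' (h ▸ h1)⟩
    · have h1 := pos (x := x) (y := y) (z := z) (by omega)
      exact ⟨by omega, pos' (h ▸ h1)⟩
    · have h1 := pos (x := x') (y := y') (z := z') (by omega)
      exact ⟨pos' (h.symm ▸ h1), by omega⟩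
    · have h1 := pos (x := x') (y := y') (z := z') (by omega)
      exact ⟨pos' (h.symm ▸ h1), by omega⟩
    · have h1 := pos (x := x') (y := y') (z := z') (by omega)
      exact ⟨pos' (h.symm ▸ h1), by omega⟩
  obtain ⟨h1, h2⟩ := hb
  rcases h1 with rfl | rfl | rfl <;> rcases h2 with rfl | rfl | rfl
  · have := rank_three_aux hα hαβ (by omega) h
    omega
  · rw [← S3_rot α β x' 0 z'] at h
    have := rank_three_aux hα hαβ (by omega) h
    omega
  · rw [← S3_rot α β x' y' 0, ← S3_rot α β y' 0 x'] at h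
    have := rank_three_aux hα hαβ (by omega) h
    omega
  · rw [← S3_rot α β x 0 z] at h
    have := rank_three_aux hα hαβ (by omega) h
    omega
  · rw [← S3_rot α β x 0 z, ← S3_rot α β x' 0 z'] at h
    have := rank_three_aux hα hαβ (by omega) h
    omega
  · rw [← S3_rot α β x 0 z, ← S3_rot α β x' y' 0, ← S3_rot α β y' 0 x'] at h
    have := rank_three_aux hα hαβ (by omega) h
    omega
  · rw [← S3_rot α β x y 0, ← S3_rot α β y 0 x] at h
    have := rank_three_aux hα hαβ (by omega) h
    omega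
  · rw [← S3_rot α β x y 0, ← S3_rot α β y 0 x, ← S3_rot α β x' 0 z'] at h
    have := rank_three_aux hα hαβ (by omega) h
    omega
  · rw [← S3_rot α β x y 0, ← S3_rot α β y 0 x, ← S3_rot α β x' y' 0,
      ← S3_rot α β y' 0 x'] at h
    have := rank_three_aux hα hαβ (by omega) h
    omega

end Pool.Agent.H78.Sph
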