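import Pool.Agent.H78.Sph.Small

set_option autoImplicit false

/-! # Orders at most ten -/

namespace Pool.Agent.H78.Sph

open Pool.Agent.Helper477.Sph

/-- The two functions agree up to a unit. -/
def Same (q : ℕ) (a a' : ZMod q → ℕ) : Prop := ∃ w : ZMod q, IsUnit w ∧ ∀ k, a' k = a (w * k)

theorem nu {q : ℕ} [NeZero q] {k : ZMod q} (h : ∀ m, k * m ≠ 1) : ¬ IsUnit k := by
  rw [isUnit_iff_exists_inv]
  rintro ⟨m, hm⟩
  exact h m hm

theorem twin3 {a a' : ZMod 3 → ℕ} (T : Twin 3 {1} a a') : Same 3 a a' := by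
  have h0 := T.z 0 (nu (by decide))
  have h0' := T.z' 0 (nu (by decide))
  have h1 := T.ev 1
  have h1' := T.ev' 1
  rw [show (-1 : ZMod 3) = 2 by decide] at h1 h1'
  have hs := T.sum
  rw [Finset.sum_singleton, Finset.sum_singleton] at hs
  refine ⟨1, isUnit_one, fun k => ?_⟩
  rw [one_mul]
  have hk : k = 0 ∨ k = 1 ∨ k = 2 := by revert k; decide
  rcases hk with rfl | rfl | rfl <;> omega

theorem twin4 {a a' : ZMod 4 → ℕ} (T : Twin 4 {1} a a') : Same 4 a a' := by
  have h0 := T.z 0 (nu (by decide))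
  have h0' := T.z' 0 (nu (by decide))
  have h2 := T.z 2 (nu (by decide))
  have h2' := T.z' 2 (nu (by decide))
  have h1 := T.ev 1
  have h1' := T.ev' 1
  rw [show (-1 : ZMod 4) = 3 by decide] at h1 h1'
  have hs := T.sum
  rw [Finset.sum_singleton, Finset.sum_singleton] at hs
  refine ⟨1, isUnit_one, fun k => ?_⟩
  rw [one_mul]
  have hk : k = 0 ∨ k = 1 ∨ k = 2 ∨ k = 3 := by revert k; decide
  rcases hk with rfl | rfl | rfl | rfl <;> omega

theorem twin6 {a a' : ZMod 6 → ℕ} (T : Twin 6 {1} a a') : Same 6 a a' := by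
  have h0 := T.z 0 (nu (by decide))
  have h0' := T.z' 0 (nu (by decide))
  have h2 := T.z 2 (nu (by decide))
  have h2' := T.z' 2 (nu (by decide))
  have h3 := T.z 3 (nu (by decide))
  have h3' := T.z' 3 (nu (by decide))
  have h4 := T.z 4 (nu (by decide))
  have h4' := T.z' 4 (nu (by decide))
  have h1 := T.ev 1
  have h1' := T.ev' 1
  rw [show (-1 : ZMod 6) = 5 by decide] at h1 h1'
  have hs := T.sum
  rw [Finset.sum_singleton, Finset.sum_singleton] at hs
  refine ⟨1, isUnit_one, fun k => ?_⟩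
  rw [one_mul]
  have hk : k = 0 ∨ k = 1 ∨ k = 2 ∨ k = 3 ∨ k = 4 ∨ k = 5 := by revert k; decide
  rcases hk with rfl | rfl | rfl | rfl | rfl | rfl <;> omega

theorem twin5 {a a' : ZMod 5 → ℕ} (T : Twin 5 {1, 2} a a') : Same 5 a a' := by
  have h0 := T.z 0 (nu (by decide))
  have h0' := T.z' 0 (nu (by decide))
  have h1 := T.ev 1
  have h1' := T.ev' 1
  have h2 := T.ev 2
  have h2' := T.ev' 2
  rw [show (-1 : ZMod 5) = 4 by decide] at h1 h1'
  rw [show (-2 : ZMod 5) = 3 by decide] at h2 h2'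
  have hs := T.sum
  rw [Finset.sum_pair (by decide), Finset.sum_pair (by decide)] at hs
  obtain ⟨M, hM, hM'⟩ : ∃ M, (a 1 ≤ M ∧ a 2 ≤ M ∧ a' 1 ≤ M ∧ a' 2 ≤ M) ∧
      (a 1 = M ∨ a 2 = M ∨ a' 1 = M ∨ a' 2 = M) :=
    ⟨max (max (a 1) (a 2)) (max (a' 1) (a' 2)), by omega, by omega⟩
  have hk : ∀ k : ZMod 5, k = 0 ∨ k = 1 ∨ k = 2 ∨ k = 3 ∨ k = 4 := by decide
  have b1 : ∀ k, a k ≤ M := by
    intro k
    rcases hk k with rfl | rfl | rfl | rfl | rfl <;> omega
  have b2 : ∀ k, a' k ≤ M := by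
    intro k
    rcases hk k with rfl | rfl | rfl | rfl | rfl <;> omega
  have hi := T.id M b1 b2 (cc (1 : ZMod 5))
  have e2 : ((2 : ZMod 5) * 2) = -1 := by decide
  rw [Finset.sum_pair (by decide), Finset.sum_pair (by decide),
    Finset.prod_pair (by decide), Finset.prod_pair (by decide),
    Finset.prod_pair (by decide), Finset.prod_pair (by decide)] at hi
  simp only [one_mul, mul_one, e2, cc_neg, sub_self] at hi
  have hα : (cc (1 : ZMod 5) - cc (2 : ZMod 5)) ≠ 0 := by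
    rw [sub_ne_zero]
    intro h
    rcases cc_inj h with h | h <;> exact absurd h (by decide)
  rcases rank_two hα (by omega) (by omega) hi with h | h
  · refine ⟨1, isUnit_one, fun k => ?_⟩
    rw [one_mul]
    rcases hk k with rfl | rfl | rfl | rfl | rfl <;> omega
  · refine ⟨2, isUnit_iff_exists_inv.mpr ⟨3, by decide⟩, fun k => ?_⟩
    rcases hk k with rfl | rfl | rfl | rfl | rfl
    · rw [mul_zero]; omega
    · rw [mul_one]; omega
    · rw [show (2 : ZMod 5) * 2 = 4 by decide]; omega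
    · rw [show (2 : ZMod 5) * 3 = 1 by decide]; omega
    · rw [show (2 : ZMod 5) * 4 = 3 by decide]; omega

theorem twin8 {a a' : ZMod 8 → ℕ} (T : Twin 8 {1, 3} a a') : Same 8 a a' := by
  have h0 := T.z 0 (nu (by decide))
  have h0' := T.z' 0 (nu (by decide))
  have g2 := T.z 2 (nu (by decide))
  have g2' := T.z' 2 (nu (by decide))
  have g4 := T.z 4 (nu (by decide))
  have g4' := T.z' 4 (nu (by decide))
  have g6 := T.z 6 (nu (by decide))
  have g6' := T.z' 6 (nu (by decide))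
  have h1 := T.ev 1
  have h1' := T.ev' 1
  have h2 := T.ev 3
  have h2' := T.ev' 3
  rw [show (-1 : ZMod 8) = 7 by decide] at h1 h1'
  rw [show (-3 : ZMod 8) = 5 by decide] at h2 h2'
  have hs := T.sum
  rw [Finset.sum_pair (by decide), Finset.sum_pair (by decide)] at hs
  obtain ⟨M, hM, hM'⟩ : ∃ M, (a 1 ≤ M ∧ a 3 ≤ M ∧ a' 1 ≤ M ∧ a' 3 ≤ M) ∧
      (a 1 = M ∨ a 3 = M ∨ a' 1 = M ∨ a' 3 = M) :=
    ⟨max (max (a 1) (a 3)) (max (a' 1) (a' 3)), by omega, by omega⟩
  have hk : ∀ k : ZMod 8, k = 0 ∨ k = 1 ∨ k = 2 ∨ k = 3 ∨ k = 4 ∨ k = 5 ∨ k = 6 ∨ k = 7 := by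
    decide
  have b1 : ∀ k, a k ≤ M := by
    intro k
    rcases hk k with rfl | rfl | rfl | rfl | rfl | rfl | rfl | rfl <;> omega
  have b2 : ∀ k, a' k ≤ M := by
    intro k
    rcases hk k with rfl | rfl | rfl | rfl | rfl | rfl | rfl | rfl <;> omega
  have hi := T.id M b1 b2 (cc (1 : ZMod 8))
  have e2 : ((3 : ZMod 8) * 3) = 1 := by decide
  rw [Finset.sum_pair (by decide), Finset.sum_pair (by decide),
    Finset.prod_pair (by decide), Finset.prod_pair (by decide),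
    Finset.prod_pair (by decide), Finset.prod_pair (by decide)] at hi
  simp only [one_mul, mul_one, e2, sub_self] at hi
  have hα : (cc (1 : ZMod 8) - cc (3 : ZMod 8)) ≠ 0 := by
    rw [sub_ne_zero]
    intro h
    rcases cc_inj h with h | h <;> exact absurd h (by decide)
  rcases rank_two hα (by omega) (by omega) hi with h | h
  · refine ⟨1, isUnit_one, fun k => ?_⟩
    rw [one_mul]
    rcases hk k with rfl | rfl | rfl | rfl | rfl | rfl | rfl | rfl <;> omega
  · refine ⟨3, isUnit_iff_exists_inv.mpr ⟨3, by decide⟩, fun k => ?_⟩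
    rcases hk k with rfl | rfl | rfl | rfl | rfl | rfl | rfl | rfl
    · rw [mul_zero]; omega
    · rw [mul_one]; omega
    · rw [show (3 : ZMod 8) * 2 = 6 by decide]; omega
    · rw [show (3 : ZMod 8) * 3 = 1 by decide]; omega
    · rw [show (3 : ZMod 8) * 4 = 4 by decide]; omega
    · rw [show (3 : ZMod 8) * 5 = 7 by decide]; omega
    · rw [show (3 : ZMod 8) * 6 = 2 by decide]; omega
    · rw [show (3 : ZMod 8) * 7 = 5 by decide]; omega

theorem twin10 {a a' : ZMod 10 → ℕ} (T : Twin 10 {1, 3} a a') : Same 10 a a' := by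
  have h0 := T.z 0 (nu (by decide))
  have h0' := T.z' 0 (nu (by decide))
  have g2 := T.z 2 (nu (by decide))
  have g2' := T.z' 2 (nu (by decide))
  have g4 := T.z 4 (nu (by decide))
  have g4' := T.z' 4 (nu (by decide))
  have g5 := T.z 5 (nu (by decide))
  have g5' := T.z' 5 (nu (by decide))
  have g6 := T.z 6 (nu (by decide))
  have g6' := T.z' 6 (nu (by decide))
  have g8 := T.z 8 (nu (by decide))
  have g8' := T.z' 8 (nu (by decide))
  have h1 := T.ev 1
  have h1' := T.ev' 1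
  have h2 := T.ev 3
  have h2' := T.ev' 3
  rw [show (-1 : ZMod 10) = 9 by decide] at h1 h1'
  rw [show (-3 : ZMod 10) = 7 by decide] at h2 h2'
  have hs := T.sum
  rw [Finset.sum_pair (by decide), Finset.sum_pair (by decide)] at hs
  obtain ⟨M, hM, hM'⟩ : ∃ M, (a 1 ≤ M ∧ a 3 ≤ M ∧ a' 1 ≤ M ∧ a' 3 ≤ M) ∧
      (a 1 = M ∨ a 3 = M ∨ a' 1 = M ∨ a' 3 = M) :=
    ⟨max (max (a 1) (a 3)) (max (a' 1) (a' 3)), by omega, by omega⟩
  have hk : ∀ k : ZMod 10, k = 0 ∨ k = 1 ∨ k = 2 ∨ k = 3 ∨ k = 4 ∨ k = 5 ∨ k = 6 ∨ k = 7 ∨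
      k = 8 ∨ k = 9 := by
    decide
  have b1 : ∀ k, a k ≤ M := by
    intro k
    rcases hk k with rfl | rfl | rfl | rfl | rfl | rfl | rfl | rfl | rfl | rfl <;> omega
  have b2 : ∀ k, a' k ≤ M := by
    intro k
    rcases hk k with rfl | rfl | rfl | rfl | rfl | rfl | rfl | rfl | rfl | rfl <;> omega
  have hi := T.id M b1 b2 (cc (1 : ZMod 10))
  have e2 : ((3 : ZMod 10) * 3) = -1 := by decide
  rw [Finset.sum_pair (by decide), Finset.sum_pair (by decide),
    Finset.prod_pair (by decide), Finset.prod_pair (by decide),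
    Finset.prod_pair (by decide), Finset.prod_pair (by decide)] at hi
  simp only [one_mul, mul_one, e2, cc_neg, sub_self] at hi
  have hα : (cc (1 : ZMod 10) - cc (3 : ZMod 10)) ≠ 0 := by
    rw [sub_ne_zero]
    intro h
    rcases cc_inj h with h | h <;> exact absurd h (by decide)
  rcases rank_two hα (by omega) (by omega) hi with h | h
  · refine ⟨1, isUnit_one, fun k => ?_⟩
    rw [one_mul]
    rcases hk k with rfl | rfl | rfl | rfl | rfl | rfl | rfl | rfl | rfl | rfl <;> omega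
  · refine ⟨3, isUnit_iff_exists_inv.mpr ⟨7, by decide⟩, fun k => ?_⟩
    rcases hk k with rfl | rfl | rfl | rfl | rfl | rfl | rfl | rfl | rfl | rfl
    · rw [mul_zero]; omega
    · rw [mul_one]; omega
    · rw [show (3 : ZMod 10) * 2 = 6 by decide]; omega
    · rw [show (3 : ZMod 10) * 3 = 9 by decide]; omega
    · rw [show (3 : ZMod 10) * 4 = 2 by decide]; omega
    · rw [show (3 : ZMod 10) * 5 = 5 by decide]; omega
    · rw [show (3 : ZMod 10) * 6 = 8 by decide]; omega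
    · rw [show (3 : ZMod 10) * 7 = 1 by decide]; omega
    · rw [show (3 : ZMod 10) * 8 = 4 by decide]; omega
    · rw [show (3 : ZMod 10) * 9 = 7 by decide]; omega

theorem cc_real {q : ℕ} [NeZero q] (m : ℕ) :
    cc (m : ZMod q) = ((2 * Real.cos (2 * Real.pi * m / q) : ℝ) : ℂ) := by
  have h := two_cos (q := q) (m : ℤ)
  push_cast at h ⊢
  rw [cc, ← h]

theorem twin7 {a a' : ZMod 7 → ℕ} (T : Twin 7 {1, 2, 3} a a') : Same 7 a a' := by
  have h0 := T.z 0 (nu (by decide))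
  have h0' := T.z' 0 (nu (by decide))
  have h1 := T.ev 1
  have h1' := T.ev' 1
  have h2 := T.ev 2
  have h2' := T.ev' 2
  have h3 := T.ev 3
  have h3' := T.ev' 3
  rw [show (-1 : ZMod 7) = 6 by decide] at h1 h1'
  rw [show (-2 : ZMod 7) = 5 by decide] at h2 h2'
  rw [show (-3 : ZMod 7) = 4 by decide] at h3 h3'
  have S : ∀ {R : Type} [AddCommMonoid R] (f : ZMod 7 → R),
      ∑ k ∈ ({1, 2, 3} : Finset (ZMod 7)), f k = f 1 + (f 2 + f 3) := by
    intro R _ f
    rw [Finset.sum_insert (by decide), Finset.sum_pair (by decide)]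
  have P : ∀ {R : Type} [CommMonoid R] (f : ZMod 7 → R),
      ∏ k ∈ ({1, 2, 3} : Finset (ZMod 7)), f k = f 1 * (f 2 * f 3) := by
    intro R _ f
    rw [Finset.prod_insert (by decide), Finset.prod_pair (by decide)]
  have hs := T.sum
  rw [S, S] at hs
  obtain ⟨M, hM, hM'⟩ : ∃ M, (a 1 ≤ M ∧ a 2 ≤ M ∧ a 3 ≤ M ∧ a' 1 ≤ M ∧ a' 2 ≤ M ∧ a' 3 ≤ M) ∧
      (a 1 = M ∨ a 2 = M ∨ a 3 = M ∨ a' 1 = M ∨ a' 2 = M ∨ a' 3 = M) :=
    ⟨max (max (max (a 1) (a 2)) (a 3)) (max (max (a' 1) (a' 2)) (a' 3)), by omega, by omega⟩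
  have hk : ∀ k : ZMod 7, k = 0 ∨ k = 1 ∨ k = 2 ∨ k = 3 ∨ k = 4 ∨ k = 5 ∨ k = 6 := by decide
  have b1 : ∀ k, a k ≤ M := by
    intro k
    rcases hk k with rfl | rfl | rfl | rfl | rfl | rfl | rfl <;> omega
  have b2 : ∀ k, a' k ≤ M := by
    intro k
    rcases hk k with rfl | rfl | rfl | rfl | rfl | rfl | rfl <;> omega
  have hi := T.id M b1 b2 (cc (1 : ZMod 7))
  rw [S, S, P, P, P, P, P, P] at hi
  simp only [one_mul, mul_one, show (2 : ZMod 7) * 2 = -3 by decide,
    show (2 : ZMod 7) * 3 = -1 by decide, show (3 : ZMod 7) * 2 = -1 by decide,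
    show (3 : ZMod 7) * 3 = 2 by decide, cc_neg, sub_self] at hi
  have c1 := cc_real (q := 7) 1
  have c2 := cc_real (q := 7) 2
  have c3 := cc_real (q := 7) 3
  norm_num at c1 c2 c3
  rw [c1, c2, c3] at hi
  set α : ℝ := 2 * Real.cos (2 * Real.pi / 7) - 2 * Real.cos (2 * Real.pi * 2 / 7) with hαd
  set β : ℝ := 2 * Real.cos (2 * Real.pi / 7) - 2 * Real.cos (2 * Real.pi * 3 / 7) with hβd
  have eα : (2 * Complex.cos (2 * Real.pi / 7) - 2 * Complex.cos (2 * Real.pi * 2 / 7)) =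
      (α : ℂ) := by rw [hαd]; push_cast; ring
  have eβ : (2 * Complex.cos (2 * Real.pi / 7) - 2 * Complex.cos (2 * Real.pi * 3 / 7)) =
      (β : ℂ) := by rw [hβd]; push_cast; ring
  rw [eα, eβ] at hi
  have hpi := Real.pi_pos
  have hα : 0 < α := by
    have := Real.cos_lt_cos_of_nonneg_of_le_pi (x := 2 * Real.pi / 7) (y := 2 * Real.pi * 2 / 7)
      (by positivity) (by linarith) (by linarith)
    rw [hαd]; linarith
  have hαβ : α < β := by
    have := Real.cos_lt_cos_of_nonneg_of_le_pi (x := 2 * Real.pi * 2 / 7)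
      (y := 2 * Real.pi * 3 / 7) (by positivity) (by linarith) (by linarith)
    rw [hαd, hβd]; linarith
  have hS : S3 α β (M - a 1) (M - a 2) (M - a 3) = S3 α β (M - a' 1) (M - a' 2) (M - a' 3) := by
    have : ((S3 α β (M - a 1) (M - a 2) (M - a 3) : ℝ) : ℂ) =
        ((S3 α β (M - a' 1) (M - a' 2) (M - a' 3) : ℝ) : ℂ) := by
      unfold S3
      push_cast
      linear_combination hi
    exact_mod_cast this
  rcases rank_three hα hαβ (by omega) (by omega) hS with h | h | h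
  · refine ⟨1, isUnit_one, fun k => ?_⟩
    rw [one_mul]
    rcases hk k with rfl | rfl | rfl | rfl | rfl | rfl | rfl <;> omega
  · refine ⟨2, isUnit_iff_exists_inv.mpr ⟨4, by decide⟩, fun k => ?_⟩
    rcases hk k with rfl | rfl | rfl | rfl | rfl | rfl | rfl
    · rw [mul_zero]; omega
    · rw [mul_one]; omega
    · rw [show (2 : ZMod 7) * 2 = 4 by decide]; omega
    · rw [show (2 : ZMod 7) * 3 = 6 by decide]; omega
    · rw [show (2 : ZMod 7) * 4 = 1 by decide]; omega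
    · rw [show (2 : ZMod 7) * 5 = 3 by decide]; omega
    · rw [show (2 : ZMod 7) * 6 = 5 by decide]; omega
  · refine ⟨4, isUnit_iff_exists_inv.mpr ⟨2, by decide⟩, fun k => ?_⟩
    rcases hk k with rfl | rfl | rfl | rfl | rfl | rfl | rfl
    · rw [mul_zero]; omega
    · rw [mul_one]; omega
    · rw [show (4 : ZMod 7) * 2 = 1 by decide]; omega
    · rw [show (4 : ZMod 7) * 3 = 5 by decide]; omega
    · rw [show (4 : ZMod 7) * 4 = 2 by decide]; omega
    · rw [show (4 : ZMod 7) * 5 = 6 by decide]; omega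
    · rw [show (4 : ZMod 7) * 6 = 3 by decide]; omega

theorem twin9 {a a' : ZMod 9 → ℕ} (T : Twin 9 {1, 2, 4} a a') : Same 9 a a' := by
  have h0 := T.z 0 (nu (by decide))
  have h0' := T.z' 0 (nu (by decide))
  have g3 := T.z 3 (nu (by decide))
  have g3' := T.z' 3 (nu (by decide))
  have g6 := T.z 6 (nu (by decide))
  have g6' := T.z' 6 (nu (by decide))
  have h1 := T.ev 1
  have h1' := T.ev' 1
  have h2 := T.ev 2
  have h2' := T.ev' 2
  have h3 := T.ev 4
  have h3' := T.ev' 4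
  rw [show (-1 : ZMod 9) = 8 by decide] at h1 h1'
  rw [show (-2 : ZMod 9) = 7 by decide] at h2 h2'
  rw [show (-4 : ZMod 9) = 5 by decide] at h3 h3'
  have S : ∀ {R : Type} [AddCommMonoid R] (f : ZMod 9 → R),
      ∑ k ∈ ({1, 2, 4} : Finset (ZMod 9)), f k = f 1 + (f 2 + f 4) := by
    intro R _ f
    rw [Finset.sum_insert (by decide), Finset.sum_pair (by decide)]
  have P : ∀ {R : Type} [CommMonoid R] (f : ZMod 9 → R),
      ∏ k ∈ ({1, 2, 4} : Finset (ZMod 9)), f k = f 1 * (f 2 * f 4) := by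
    intro R _ f
    rw [Finset.prod_insert (by decide), Finset.prod_pair (by decide)]
  have hs := T.sum
  rw [S, S] at hs
  obtain ⟨M, hM, hM'⟩ : ∃ M, (a 1 ≤ M ∧ a 2 ≤ M ∧ a 4 ≤ M ∧ a' 1 ≤ M ∧ a' 2 ≤ M ∧ a' 4 ≤ M) ∧
      (a 1 = M ∨ a 2 = M ∨ a 4 = M ∨ a' 1 = M ∨ a' 2 = M ∨ a' 4 = M) :=
    ⟨max (max (max (a 1) (a 2)) (a 4)) (max (max (a' 1) (a' 2)) (a' 4)), by omega, by omega⟩
  have hk : ∀ k : ZMod 9, k = 0 ∨ k = 1 ∨ k = 2 ∨ k = 3 ∨ k = 4 ∨ k = 5 ∨ k = 6 ∨ k = 7 ∨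
      k = 8 := by decide
  have b1 : ∀ k, a k ≤ M := by
    intro k
    rcases hk k with rfl | rfl | rfl | rfl | rfl | rfl | rfl | rfl | rfl <;> omega
  have b2 : ∀ k, a' k ≤ M := by
    intro k
    rcases hk k with rfl | rfl | rfl | rfl | rfl | rfl | rfl | rfl | rfl <;> omega
  have hi := T.id M b1 b2 (cc (1 : ZMod 9))
  rw [S, S, P, P, P, P, P, P] at hi
  simp only [one_mul, mul_one, show (2 : ZMod 9) * 2 = 4 by decide,
    show (2 : ZMod 9) * 4 = -1 by decide, show (4 : ZMod 9) * 2 = -1 by decide,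
    show (4 : ZMod 9) * 4 = -2 by decide, cc_neg, sub_self] at hi
  have c1 := cc_real (q := 9) 1
  have c2 := cc_real (q := 9) 2
  have c3 := cc_real (q := 9) 4
  norm_num at c1 c2 c3
  rw [c1, c2, c3] at hi
  set α : ℝ := 2 * Real.cos (2 * Real.pi / 9) - 2 * Real.cos (2 * Real.pi * 2 / 9) with hαd
  set β : ℝ := 2 * Real.cos (2 * Real.pi / 9) - 2 * Real.cos (2 * Real.pi * 4 / 9) with hβd
  have eα : (2 * Complex.cos (2 * Real.pi / 9) - 2 * Complex.cos (2 * Real.pi * 2 / 9)) =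
      (α : ℂ) := by rw [hαd]; push_cast; ring
  have eβ : (2 * Complex.cos (2 * Real.pi / 9) - 2 * Complex.cos (2 * Real.pi * 4 / 9)) =
      (β : ℂ) := by rw [hβd]; push_cast; ring
  rw [eα, eβ] at hi
  have hpi := Real.pi_pos
  have hα : 0 < α := by
    have := Real.cos_lt_cos_of_nonneg_of_le_pi (x := 2 * Real.pi / 9) (y := 2 * Real.pi * 2 / 9)
      (by positivity) (by linarith) (by linarith)
    rw [hαd]; linarith
  have hαβ : α < β := by
    have := Real.cos_lt_cos_of_nonneg_of_le_pi (x := 2 * Real.pi * 2 / 9)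
      (y := 2 * Real.pi * 4 / 9) (by positivity) (by linarith) (by linarith)
    rw [hαd, hβd]; linarith
  have hS : S3 α β (M - a 1) (M - a 2) (M - a 4) = S3 α β (M - a' 1) (M - a' 2) (M - a' 4) := by
    have : ((S3 α β (M - a 1) (M - a 2) (M - a 4) : ℝ) : ℂ) =
        ((S3 α β (M - a' 1) (M - a' 2) (M - a' 4) : ℝ) : ℂ) := by
      unfold S3
      push_cast
      linear_combination hi
    exact_mod_cast this
  rcases rank_three hα hαβ (by omega) (by omega) hS with h | h | h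
  · refine ⟨1, isUnit_one, fun k => ?_⟩
    rw [one_mul]
    rcases hk k with rfl | rfl | rfl | rfl | rfl | rfl | rfl | rfl | rfl <;> omega
  · refine ⟨2, isUnit_iff_exists_inv.mpr ⟨5, by decide⟩, fun k => ?_⟩
    rcases hk k with rfl | rfl | rfl | rfl | rfl | rfl | rfl | rfl | rfl
    · rw [mul_zero]; omega
    · rw [mul_one]; omega
    · rw [show (2 : ZMod 9) * 2 = 4 by decide]; omega
    · rw [show (2 : ZMod 9) * 3 = 6 by decide]; omega
    · rw [show (2 : ZMod 9) * 4 = 8 by decide]; omega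
    · rw [show (2 : ZMod 9) * 5 = 1 by decide]; omega
    · rw [show (2 : ZMod 9) * 6 = 3 by decide]; omega
    · rw [show (2 : ZMod 9) * 7 = 5 by decide]; omega
    · rw [show (2 : ZMod 9) * 8 = 7 by decide]; omega
  · refine ⟨4, isUnit_iff_exists_inv.mpr ⟨7, by decide⟩, fun k => ?_⟩
    rcases hk k with rfl | rfl | rfl | rfl | rfl | rfl | rfl | rfl | rfl
    · rw [mul_zero]; omega
    · rw [mul_one]; omega
    · rw [show (4 : ZMod 9) * 2 = 8 by decide]; omega
    · rw [show (4 : ZMod 9) * 3 = 3 by decide]; omega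
    · rw [show (4 : ZMod 9) * 4 = 7 by decide]; omega
    · rw [show (4 : ZMod 9) * 5 = 2 by decide]; omega
    · rw [show (4 : ZMod 9) * 6 = 6 by decide]; omega
    · rw [show (4 : ZMod 9) * 7 = 1 by decide]; omega
    · rw [show (4 : ZMod 9) * 8 = 5 by decide]; omega

end Pool.Agent.H78.Sph
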